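import Mathlib
import Pool.Agent.helper12.RS.Char

/-!
# A constant saving at and below the square root barrier, for arbitrary sets

Let `χ` be a non-trivial multiplicative character of `F_p` of order `m`, and let `A`, `B` be
arbitrary sets with `|A||B| ≥ (1 + ε)(p - 1)/m`. Then the double sum of `χ(a + b)` saves a
positive proportion, depending on `ε` and `m` only, over the trivial bound. The Cauchy-Schwarz
(Vinogradov) bound `(p|A||B|)^(1/2)` is trivial for `|A||B| ≤ p`, and the threshold `(p - 1)/m` is
optimal (take one point and a coset of the kernel of `χ`).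

The proof is a robust version of the Stepanov argument of Hanson and Petridis: auxiliary
polynomials `∑ V_b(X) (X + b)^(d + k)` with polynomial coefficients `V_b`, which vanish to high
order at every point of `A` although a small proportion of the sums `a + b` is outside the
coset; a non-vanishing statement for generalised Vandermonde matrices with entries
`(X + b)^e` replaces the evaluation of the leading coefficient.
-/

namespace Pool.Agent.Results.MP_f6e9a2_nt.BarrierSaving

/-- For `0 < ε ≤ 1`, a prime `p`, a non-trivial character `χ` of order `m` with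
`576 m ≤ ε² (p - 1)`, and all sets `A`, `B` with `m |A| |B| ≥ (1 + ε)(p - 1)`, the modulus of the
sum of `χ(a + b)` over `A × B` is at most `(1 - (ε² / 32) sin²(π/m)) |A| |B|`. -/
theorem result (ε : ℝ) (hε : 0 < ε) (hε1 : ε ≤ 1) (p : ℕ) [Fact p.Prime]
    (χ : MulChar (ZMod p) ℂ) (hχ : χ ≠ 1)
    (hp : 576 * (orderOf χ : ℝ) ≤ ε ^ 2 * ((p : ℝ) - 1)) (A B : Finset (ZMod p))
    (hAB : (1 + ε) * ((p : ℝ) - 1) ≤ (orderOf χ : ℝ) * ((A.card : ℝ) * (B.card : ℝ))) :
    ‖∑ a ∈ A, ∑ b ∈ B, χ (a + b)‖ ≤
      (1 - ε ^ 2 / 32 * Real.sin (Real.pi / (orderOf χ : ℝ)) ^ 2) *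
        ((A.card : ℝ) * (B.card : ℝ)) :=
  Pool.Agent.helper12.RS.char_sum p χ hχ ε hε hε1 hp A B hAB

end Pool.Agent.Results.MP_f6e9a2_nt.BarrierSaving
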