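import Mathlib
import Pool.Agent.helper68.FY.All

set_option autoImplicit false

namespace Pool.Agent.Results.MP_f6e9a2_nt.FareySets

/-- Power saving for double character sums `∑ χ(z + w)` over `z ∈ A`, `w ∈ B`, where `A` is contained
in a Moebius image of the Farey set `{x/y : 1 ≤ x, y ≤ Q}` and `B` is an arbitrary set. -/
theorem result :
    ∀ ε : ℝ, 0 < ε → ∃ p₀ : ℕ, ∃ δ : ℝ, 0 < δ ∧ ∀ p : ℕ, p.Prime → p₀ < p →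
      ∀ (Q : ℕ) (A B : Finset (ZMod p)), (p : ℝ) ^ ε ≤ Q → Q ^ 4 ≤ p →
        (p : ℝ) ^ (1 / 2 + ε) ≤ (Q : ℝ) ^ 2 * B.card →
        (p : ℝ) ^ (3 / 4 + ε) ≤ (Q : ℝ) ^ 4 * B.card →
        ∀ a b c d : ZMod p, a * d - b * c ≠ 0 →
          (∀ z ∈ A, ∃ x y : ℕ, 1 ≤ x ∧ x ≤ Q ∧ 1 ≤ y ∧ y ≤ Q ∧ c * x + d * y ≠ 0 ∧
            z * (c * x + d * y) = a * x + b * y) →
          ∀ χ : MulChar (ZMod p) ℂ, χ ≠ 1 → ∀ β : ZMod p → ℂ, (∀ w, ‖β w‖ ≤ 1) →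
            ∑ z ∈ A, ‖∑ w ∈ B, β w * χ (z + w)‖ ≤ (p : ℝ) ^ (-δ) * (Q : ℝ) ^ 2 * B.card := by
  intro ε hε
  obtain ⟨p₀, δ, hδ, h⟩ := Pool.Agent.helper68.FY.ALL ε hε
  refine ⟨p₀, δ, hδ, fun p hp hp₀ Q A B h1 h2 h3 h4 a b c d hdet hA χ hχ β hβ => ?_⟩
  haveI : Fact p.Prime := ⟨hp⟩
  refine h p hp₀ χ hχ A B β hβ Q h1 h2 h3 h4 a b c d hdet fun z hz => ?_
  obtain ⟨x, y, hx1, hx2, hy1, hy2, hne, he⟩ := hA z hz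
  exact ⟨x, y, hx1, hx2, hy1, hy2, hne, by rw [← he, mul_div_cancel_right₀ _ hne]⟩

end Pool.Agent.Results.MP_f6e9a2_nt.FareySets
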