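import Pool.Agent.helper68.PL.P1

/-!
# Polynomials whose periodic points are uniformly non-neutral have no invariant line fields

`HasInvariantLineField` is defined in `Pool/Agent/helper98/ILF/Defs.lean`.
-/

set_option autoImplicit false

namespace Pool.Agent.helper68.Reserve.UniformRepulsion

open Pool.Agent.helper98.ILF

/-- The `m`-th iterate of the polynomial `f`. -/
noncomputable def iter (f : Polynomial ℂ) (m : ℕ) : ℂ → ℂ := (fun w : ℂ => f.eval w)^[m]

/-- The multipliers of the periodic points of `f` stay away from the unit circle: for some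
`δ > 0` every `z` with `f^k (z) = z`, `k ≥ 1`, satisfies `|(f^k)'(z)| ≥ 1 + δ` or
`|(f^k)'(z)| ≤ 1 - δ`. -/
def UniformlyNonNeutral (f : Polynomial ℂ) : Prop :=
  ∃ δ > (0 : ℝ), ∀ (k : ℕ) (z : ℂ), 0 < k → iter f k z = z →
    1 + δ ≤ ‖deriv (iter f k) z‖ ∨ ‖deriv (iter f k) z‖ ≤ 1 - δ

/-- A polynomial of degree at least 2 with uniformly non-neutral periodic points has no invariant
line field on its Julia set. -/
theorem result (f : Polynomial ℂ) (hf : 2 ≤ f.natDegree) (h : UniformlyNonNeutral f) :
    ¬ HasInvariantLineField (fun z : ℂ => f.eval z) := by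
  obtain ⟨δ, hδ, h⟩ := h
  exact PLX.P1 f δ hf hδ fun k z hk hz => h k z hk hz

end Pool.Agent.helper68.Reserve.UniformRepulsion
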